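import Pool.Agent.Lib.MP_6bc78b_nt.GP.H45.Tkx
import Pool.Agent.Lib.MP_6bc78b_nt.GP.H3.Defs8

/-! Project GP8 (MP_6bc78b_nt), helper45: row RNG8. -/

set_option autoImplicit false

open Filter Topology MeasureTheory Set

namespace Pool.Agent.Lib.MP_6bc78b_nt.GP.H45

open Pool.Agent.Lib.MP_6bc78b_nt.GP.G7 Pool.Agent.Lib.MP_6bc78b_nt.GP.G8

/-- `RNG8Statement` with the summability, for all `T ≥ 10`. -/
theorem rng8' : ∀ a : ℝ, 0 < a → ∃ C : ℝ, 0 < C ∧ ∀ ε : ℝ, 0 < ε → ε < 1 →
    ∀ T : ℝ, 10 ≤ T →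
    Summable (fun n : ℕ => if (n : ℝ) ≤ ε * T ∨ T / ε < n then
      Real.log n ^ 4 * Real.exp (-(2 * a / T * n)) else 0) ∧
    ∑' n : ℕ, (if (n : ℝ) ≤ ε * T ∨ T / ε < n then
      Real.log n ^ 4 * Real.exp (-(2 * a / T * n)) else 0) ≤ C * ε * T * Real.log T ^ 4 := by
  intro a ha
  refine ⟨(1 + 4 / a) ^ 4 * ((2 / a) * (2 / a)) + 1, by positivity, ?_⟩
  intro ε hε hε1 T hT10
  have hT0 : 0 < T := by linarith
  have hlT : 0 < Real.log T := Real.log_pos (by linarith)
  set x : ℕ → ℝ := fun n => if n = 0 then 0 else 1 with hx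
  have hx0 : ∀ n, 0 ≤ x n := by
    intro n
    simp only [hx]
    split_ifs
    · exact le_rfl
    · exact zero_le_one
  have hpart : ∀ N : ℕ, ∑ n ∈ Finset.range (N + 1), x n ≤ 1 * N + 0 := by
    intro N
    have := range_eq_Ioc (fun _ => (1 : ℝ)) N
    rw [hx, this]
    simp
  have hτ : 0 < a / (2 * T) := by positivity
  have hmain := tsum_le_of_partial hx0 hτ (by norm_num) hpart
  have hsx := summable_of_partial hx0 hτ hpart
  rw [add_zero] at hmain
  set s1 : ℕ → ℝ := fun n => if (n : ℝ) ≤ ε * T then Real.log T ^ 4 * x n else 0 with hs1d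
  set C2 : ℝ := (1 + 4 / a) ^ 4 * Real.log T ^ 4 * (2 * ε / a) with hC2
  have hC20 : 0 ≤ C2 := by positivity
  have hfin : ∀ n ∉ Finset.range (⌊ε * T⌋₊ + 1), s1 n = 0 := by
    intro n hn
    simp only [hs1d]
    rw [if_neg]
    intro h
    exact hn (Finset.mem_range.2 (Nat.lt_succ_iff.2 (Nat.le_floor h)))
  have hss1 : Summable s1 := summable_of_ne_finset_zero hfin
  have hts1 : ∑' n, s1 n ≤ ε * T * Real.log T ^ 4 := by
    rw [tsum_eq_sum hfin]
    calc ∑ n ∈ Finset.range (⌊ε * T⌋₊ + 1), s1 n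
        ≤ ∑ n ∈ Finset.range (⌊ε * T⌋₊ + 1), Real.log T ^ 4 * x n := by
          refine Finset.sum_le_sum fun n _ => ?_
          simp only [hs1d]
          split_ifs
          · exact le_rfl
          · exact mul_nonneg (by positivity) (hx0 n)
      _ = Real.log T ^ 4 * ∑ n ∈ Finset.range (⌊ε * T⌋₊ + 1), x n := by rw [Finset.mul_sum]
      _ ≤ Real.log T ^ 4 * (1 * (⌊ε * T⌋₊ : ℝ) + 0) :=
          mul_le_mul_of_nonneg_left (hpart _) (by positivity)
      _ ≤ Real.log T ^ 4 * (ε * T) := by
          refine mul_le_mul_of_nonneg_left ?_ (by positivity)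
          have := Nat.floor_le (show 0 ≤ ε * T by positivity)
          linarith
      _ = _ := by ring
  have hle : ∀ n : ℕ, (if (n : ℝ) ≤ ε * T ∨ T / ε < n then
      Real.log n ^ 4 * Real.exp (-(2 * a / T * n)) else 0) ≤
      s1 n + C2 * (x n * Real.exp (-(a / (2 * T) * n))) := by
    intro n
    have hnn1 : 0 ≤ s1 n := by
      simp only [hs1d]
      split_ifs
      · exact mul_nonneg (by positivity) (hx0 n)
      · exact le_rfl
    have hnn2 : 0 ≤ C2 * (x n * Real.exp (-(a / (2 * T) * n))) :=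
      mul_nonneg hC20 (mul_nonneg (hx0 n) (Real.exp_pos _).le)
    by_cases hn : n = 0
    · subst hn
      simp only [Nat.cast_zero, Real.log_zero]
      split_ifs
      · simp only [ne_eq, OfNat.ofNat_ne_zero, not_false_eq_true, zero_pow, zero_mul]
        simp only [Nat.cast_zero] at hnn2
        linarith
      · simp only [Nat.cast_zero] at hnn2
        linarith
    have hxn : x n = 1 := by simp only [hx, hn, if_false]
    by_cases h1 : (n : ℝ) ≤ ε * T
    · rw [if_pos (Or.inl h1)]
      have e1 : s1 n = Real.log T ^ 4 := by simp only [hs1d]; rw [if_pos h1, hxn, mul_one]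
      have hn1 : (1 : ℝ) ≤ n := by exact_mod_cast Nat.one_le_iff_ne_zero.2 hn
      have hlog : Real.log n ≤ Real.log T := by
        refine Real.log_le_log (by linarith) (h1.trans ?_)
        nlinarith
      have hln : 0 ≤ Real.log n := Real.log_natCast_nonneg n
      have h4 : Real.log n ^ 4 ≤ Real.log T ^ 4 := pow_le_pow_left₀ hln hlog 4
      have h5 : Real.exp (-(2 * a / T * n)) ≤ 1 := by
        rw [Real.exp_le_one_iff]
        have : 0 ≤ 2 * a / T * n := by positivity
        linarith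
      have h6 : Real.log n ^ 4 * Real.exp (-(2 * a / T * n)) ≤ Real.log T ^ 4 * 1 :=
        mul_le_mul h4 h5 (Real.exp_pos _).le (by positivity)
      rw [e1]
      linarith
    · by_cases h2 : T / ε < n
      · rw [if_pos (Or.inr h2)]
        have h3 := log_weight' (T := T) ha hT10 n
        have h4 : Real.exp (-(a / T * n)) ≤ (2 * ε / a) * Real.exp (-(a / (2 * T) * n)) := by
          have e : Real.exp (-(a / T * n)) =
              Real.exp (-(a / (2 * T) * n)) * Real.exp (-(a / (2 * T) * n)) := by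
            rw [← Real.exp_add]; congr 1; field_simp; ring
          rw [e]
          refine mul_le_mul_of_nonneg_right ?_ (Real.exp_pos _).le
          have h5 : a / (2 * ε) ≤ a / (2 * T) * n := by
            have : a / (2 * ε) = a / (2 * T) * (T / ε) := by field_simp
            rw [this]
            exact mul_le_mul_of_nonneg_left h2.le (by positivity)
          have h6 : a / (2 * ε) + 1 ≤ Real.exp (a / (2 * T) * n) :=
            (add_le_add_left h5 1).trans (Real.add_one_le_exp _)
          have h7 : 0 < a / (2 * ε) := by positivity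
          rw [Real.exp_neg]
          calc (Real.exp (a / (2 * T) * n))⁻¹ ≤ (a / (2 * ε))⁻¹ :=
                inv_anti₀ h7 (by linarith)
            _ = 2 * ε / a := by rw [inv_div]
        have h9 : 0 ≤ (1 + 4 / a) ^ 4 * Real.log T ^ 4 := by positivity
        have h10 : Real.log n ^ 4 * Real.exp (-(2 * a / T * n)) ≤
            C2 * (x n * Real.exp (-(a / (2 * T) * n))) := by
          rw [hxn, one_mul]
          calc Real.log n ^ 4 * Real.exp (-(2 * a / T * n)) ≤
              (1 + 4 / a) ^ 4 * Real.log T ^ 4 * Real.exp (-(a / T * n)) := h3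
            _ ≤ (1 + 4 / a) ^ 4 * Real.log T ^ 4 *
                ((2 * ε / a) * Real.exp (-(a / (2 * T) * n))) :=
              mul_le_mul_of_nonneg_left h4 h9
            _ = _ := by rw [hC2]; ring
        linarith
      · rw [if_neg (by tauto)]
        linarith
  have hnn : ∀ n : ℕ, 0 ≤ (if (n : ℝ) ≤ ε * T ∨ T / ε < n then
      Real.log n ^ 4 * Real.exp (-(2 * a / T * n)) else 0) := by
    intro n
    have : 0 ≤ Real.log n := Real.log_natCast_nonneg n
    split_ifs
    · positivity
    · exact le_rfl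
  have hs2 := hss1.add (hsx.mul_left C2)
  have hs0 := Summable.of_nonneg_of_le hnn hle hs2
  refine ⟨hs0, ?_⟩
  calc ∑' n : ℕ, (if (n : ℝ) ≤ ε * T ∨ T / ε < n then
      Real.log n ^ 4 * Real.exp (-(2 * a / T * n)) else 0)
      ≤ ∑' n : ℕ, (s1 n + C2 * (x n * Real.exp (-(a / (2 * T) * n)))) :=
        hs0.tsum_le_tsum hle hs2
    _ = ∑' n, s1 n + C2 * ∑' n : ℕ, x n * Real.exp (-(a / (2 * T) * n)) := by
        rw [hss1.tsum_add (hsx.mul_left C2), tsum_mul_left]
    _ ≤ ε * T * Real.log T ^ 4 + C2 * (1 / (a / (2 * T))) :=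
        add_le_add hts1 (mul_le_mul_of_nonneg_left hmain hC20)
    _ = ((1 + 4 / a) ^ 4 * ((2 / a) * (2 / a)) + 1) * ε * T * Real.log T ^ 4 := by
        rw [hC2]
        field_simp
        ring

theorem rng8 : RNG8Statement := by
  intro a ha
  obtain ⟨C, h1, h2⟩ := rng8' a ha
  exact ⟨C, h1, fun ε he he1 => ⟨11, by norm_num, fun T hT => (h2 ε he he1 T (by linarith)).2⟩⟩

end Pool.Agent.Lib.MP_6bc78b_nt.GP.H45
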