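import Pool.Agent.Lib.MP_6bc78b_nt.GP.H62.Defs7

/-! Project GP7 (MP_6bc78b_nt), helper45: weighted sums from bounds for the partial sums, the
weight `log⁴ n e^(-2an/T)`, and the first two moments of the number of prime factors in
`(P, Q]`. -/

set_option autoImplicit false

open Filter Topology MeasureTheory Set

namespace Pool.Agent.Lib.MP_6bc78b_nt.GP.H45

open Pool.Agent.Lib.MP_6bc78b_nt.GP.G7

lemma exp_pow_eq (τ : ℝ) (n : ℕ) : Real.exp (-(τ * n)) = Real.exp (-τ) ^ n := by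
  rw [← Real.exp_nat_mul]
  ring_nf

lemma summable_lin (α β τ : ℝ) (hτ : 0 < τ) :
    Summable (fun n : ℕ => (α * n + β) * Real.exp (-(τ * n))) := by
  have hr0 : 0 < Real.exp (-τ) := Real.exp_pos _
  have hr1 : Real.exp (-τ) < 1 := Real.exp_lt_one_iff.2 (by linarith)
  have h1 : Summable (fun n : ℕ => (n : ℝ) * Real.exp (-τ) ^ n) := by
    have := summable_pow_mul_geometric_of_norm_lt_one (R := ℝ) 1
      (r := Real.exp (-τ)) (by rw [Real.norm_of_nonneg hr0.le]; exact hr1)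
    simpa using this
  have h2 := summable_geometric_of_lt_one hr0.le hr1
  have h3 := (h1.mul_left α).add (h2.mul_left β)
  refine h3.congr fun n => ?_
  rw [exp_pow_eq]
  ring

lemma summable_of_partial {x : ℕ → ℝ} (h0 : ∀ n, 0 ≤ x n) {α β τ : ℝ} (hτ : 0 < τ)
    (h : ∀ N : ℕ, ∑ n ∈ Finset.range (N + 1), x n ≤ α * N + β) :
    Summable (fun n : ℕ => x n * Real.exp (-(τ * n))) := by
  refine Summable.of_nonneg_of_le (fun n => mul_nonneg (h0 n) (Real.exp_pos _).le) (fun n => ?_)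
    (summable_lin α β τ hτ)
  refine mul_le_mul_of_nonneg_right ?_ (Real.exp_pos _).le
  refine le_trans ?_ (h n)
  exact Finset.single_le_sum (fun i _ => h0 i) (Finset.self_mem_range_succ n)

/-- Partial sums at most `α N + β` give weighted sums at most `α/τ + β`. -/
theorem tsum_le_of_partial {x : ℕ → ℝ} (h0 : ∀ n, 0 ≤ x n) {α β τ : ℝ} (hτ : 0 < τ)
    (hα : 0 ≤ α) (h : ∀ N : ℕ, ∑ n ∈ Finset.range (N + 1), x n ≤ α * N + β) :
    ∑' n : ℕ, x n * Real.exp (-(τ * n)) ≤ α / τ + β := by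
  have hr0 : 0 < Real.exp (-τ) := Real.exp_pos _
  have hr1 : Real.exp (-τ) < 1 := Real.exp_lt_one_iff.2 (by linarith)
  set r := Real.exp (-τ) with hr
  have hs := summable_of_partial h0 hτ h
  have hg := summable_geometric_of_lt_one hr0.le hr1
  have hs' : Summable (fun n : ℕ => ‖x n * Real.exp (-(τ * n))‖) := hs.norm
  have hg' : Summable (fun n : ℕ => ‖r ^ n‖) := hg.norm
  have hC := tsum_mul_tsum_eq_tsum_sum_range_of_summable_norm hs' hg'
  have hCs := (summable_norm_sum_mul_range_of_summable_norm hs' hg').of_norm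
  have hterm : ∀ n : ℕ, ∑ k ∈ Finset.range (n + 1), x k * Real.exp (-(τ * k)) * r ^ (n - k) =
      r ^ n * ∑ k ∈ Finset.range (n + 1), x k := by
    intro n
    rw [Finset.mul_sum]
    refine Finset.sum_congr rfl fun k hk => ?_
    have hk' : k ≤ n := Nat.lt_succ_iff.1 (Finset.mem_range.1 hk)
    rw [exp_pow_eq, ← hr, mul_assoc, ← pow_add, Nat.add_sub_cancel' hk', mul_comm]
  have hle : (∑' n : ℕ, x n * Real.exp (-(τ * n))) * (1 - r)⁻¹ ≤
      α * (r / (1 - r) ^ 2) + β * (1 - r)⁻¹ := by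
    rw [← tsum_geometric_of_lt_one hr0.le hr1, hC]
    have h1 : ∑' n : ℕ, (α * n + β) * r ^ n = α * (r / (1 - r) ^ 2) + β * (∑' n : ℕ, r ^ n) := by
      have e1 : Summable (fun n : ℕ => (n : ℝ) * r ^ n) := by
        have := summable_pow_mul_geometric_of_norm_lt_one (R := ℝ) 1
          (r := r) (by rw [Real.norm_of_nonneg hr0.le]; exact hr1)
        simpa using this
      have e2 : ∑' n : ℕ, (n : ℝ) * r ^ n = r / (1 - r) ^ 2 :=
        tsum_coe_mul_geometric_of_norm_lt_one (by rw [Real.norm_of_nonneg hr0.le]; exact hr1)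
      rw [← e2, ← tsum_mul_left, ← tsum_mul_left, ← (e1.mul_left α).tsum_add (hg.mul_left β)]
      refine tsum_congr fun n => by ring
    rw [← h1]
    refine hCs.tsum_le_tsum (fun n => ?_) ?_
    · rw [hterm]
      calc r ^ n * ∑ k ∈ Finset.range (n + 1), x k ≤ r ^ n * (α * n + β) :=
            mul_le_mul_of_nonneg_left (h n) (pow_nonneg hr0.le _)
        _ = _ := mul_comm _ _
    · refine (summable_lin α β τ hτ).congr fun n => ?_
      rw [exp_pow_eq]
  have h1r : 0 < 1 - r := by linarith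
  have hle2 : ∑' n : ℕ, x n * Real.exp (-(τ * n)) ≤ α * (r / (1 - r)) + β := by
    have := mul_le_mul_of_nonneg_right hle h1r.le
    rw [mul_assoc, inv_mul_cancel₀ h1r.ne', mul_one] at this
    refine this.trans (le_of_eq ?_)
    field_simp
  refine hle2.trans ?_
  have h2 : r / (1 - r) ≤ 1 / τ := by
    rw [div_le_div_iff₀ h1r hτ]
    have h3 : τ + 1 ≤ Real.exp τ := Real.add_one_le_exp τ
    have h4 : r * Real.exp τ = 1 := by
      rw [hr, ← Real.exp_add]; simp
    nlinarith [mul_le_mul_of_nonneg_left h3 hr0.le]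
  calc α * (r / (1 - r)) + β ≤ α * (1 / τ) + β := by
        linarith [mul_le_mul_of_nonneg_left h2 hα]
    _ = α / τ + β := by ring

/-- The logarithmic weight. -/
theorem log_weight {a T : ℝ} (ha : 0 < a) (hT : 10 ≤ T) (n : ℕ) :
    Real.log n ^ 4 ≤ (1 + 4 / a) ^ 4 * Real.log T ^ 4 * Real.exp (a / T * n) := by
  have hT0 : 0 < T := by linarith
  have hl : 1 ≤ Real.log T := by
    rw [Real.le_log_iff_exp_le hT0]
    linarith [Real.exp_one_lt_d9]
  have hln : 0 ≤ Real.log n := Real.log_natCast_nonneg n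
  have h1 : Real.log n ≤ Real.log T * (1 + n / T) := by
    rcases Nat.eq_zero_or_pos n with h | h
    · subst h
      simp
      linarith
    · have hn : (0 : ℝ) < n := by exact_mod_cast h
      have e : Real.log n = Real.log T + Real.log (n / T) := by
        rw [Real.log_div hn.ne' hT0.ne']; ring
      have h2 : Real.log (n / T) ≤ n / T := by
        have := Real.log_le_sub_one_of_pos (div_pos hn hT0)
        linarith
      have h3 : 0 ≤ (n : ℝ) / T := by positivity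
      rw [e]
      nlinarith
  have h2 : (1 + (n : ℝ) / T) ≤ (1 + 4 / a) * Real.exp (a / T * n / 4) := by
    have h3 : a / T * n / 4 + 1 ≤ Real.exp (a / T * n / 4) := Real.add_one_le_exp _
    have h4 : 0 < 1 + 4 / a := by positivity
    have h5 : (1 + 4 / a) * (a / T * n / 4 + 1) = 1 + 4 / a + a / T * n / 4 + n / T := by
      field_simp
      ring
    have h6 : 0 ≤ a / T * n / 4 := by positivity
    have h7 : 0 < 4 / a := by positivity
    nlinarith [mul_le_mul_of_nonneg_left h3 h4.le]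
  have h3 : Real.log n ≤ Real.log T * ((1 + 4 / a) * Real.exp (a / T * n / 4)) :=
    h1.trans (mul_le_mul_of_nonneg_left h2 (by linarith))
  calc Real.log n ^ 4 ≤ (Real.log T * ((1 + 4 / a) * Real.exp (a / T * n / 4))) ^ 4 :=
        pow_le_pow_left₀ hln h3 4
    _ = (1 + 4 / a) ^ 4 * Real.log T ^ 4 * Real.exp (a / T * n / 4) ^ 4 := by ring
    _ = _ := by
        rw [← Real.exp_nat_mul]
        congr 2
        push_cast
        ring

theorem log_weight' {a T : ℝ} (ha : 0 < a) (hT : 10 ≤ T) (n : ℕ) :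
    Real.log n ^ 4 * Real.exp (-(2 * a / T * n)) ≤
      (1 + 4 / a) ^ 4 * Real.log T ^ 4 * Real.exp (-(a / T * n)) := by
  have h := mul_le_mul_of_nonneg_right (log_weight ha hT n) (Real.exp_pos (-(2 * a / T * n))).le
  refine h.trans (le_of_eq ?_)
  rw [mul_assoc, ← Real.exp_add]
  congr 2
  ring

/-! ### Moments -/

lemma omq_eq (P Q : ℝ) (n : ℕ) : omq P Q n = ∑ q ∈ qs P Q, if q ∣ n then (1 : ℝ) else 0 := by
  classical
  unfold omq
  rw [Finset.card_filter]
  push_cast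
  rfl

lemma mem_qs {P Q : ℝ} {q : ℕ} (hP : 0 ≤ P) : q ∈ qs P Q ↔ q.Prime ∧ P < q ∧ (q : ℝ) ≤ Q := by
  classical
  unfold qs
  rw [Finset.mem_filter, Finset.mem_range, Nat.lt_succ_iff]
  constructor
  · rintro ⟨h1, h2, h3⟩
    refine ⟨h2, h3, ?_⟩
    by_contra hc
    push Not at hc
    have hq : (0 : ℝ) < q := by exact_mod_cast h2.pos
    have : ⌊Q⌋₊ < q := by
      rcases le_or_gt 0 Q with hQ | hQ
      · exact (Nat.floor_lt hQ).2 hc
      · rw [Nat.floor_of_nonpos hQ.le]; exact h2.pos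
    omega
  · rintro ⟨h1, h2, h3⟩
    exact ⟨Nat.le_floor h3, h1, h2⟩

lemma Wq_nonneg (P Q : ℝ) : 0 ≤ Wq P Q := Finset.sum_nonneg fun q _ => by positivity

lemma card_qs_le {P Q : ℝ} (hP : 0 ≤ P) (hQ : 0 ≤ Q) : ((qs P Q).card : ℝ) ≤ Q := by
  classical
  have h : qs P Q ⊆ Finset.Icc 1 ⌊Q⌋₊ := by
    intro q hq
    rw [mem_qs hP] at hq
    rw [Finset.mem_Icc]
    exact ⟨hq.1.pos, Nat.le_floor hq.2.2⟩
  have h2 := Finset.card_le_card h
  rw [Nat.card_Icc, Nat.add_sub_cancel] at h2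
  calc ((qs P Q).card : ℝ) ≤ (⌊Q⌋₊ : ℝ) := by exact_mod_cast h2
    _ ≤ Q := Nat.floor_le hQ

lemma count_dvd (N q : ℕ) :
    ∑ n ∈ Finset.Ioc 0 N, (if q ∣ n then (1 : ℝ) else 0) = ((N / q : ℕ) : ℝ) := by
  rw [← Nat.Ioc_filter_dvd_card_eq_div N q, Finset.card_filter]
  push_cast
  rfl

/-- First moment. -/
theorem moment_one {P Q : ℝ} (hP : 0 ≤ P) (hQ : 0 ≤ Q) (N : ℕ) :
    N * Wq P Q - Q ≤ ∑ n ∈ Finset.Ioc 0 N, omq P Q n := by
  have h1 : ∑ n ∈ Finset.Ioc 0 N, omq P Q n = ∑ q ∈ qs P Q, ((N / q : ℕ) : ℝ) := by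
    simp_rw [omq_eq]
    rw [Finset.sum_comm]
    exact Finset.sum_congr rfl fun q _ => count_dvd N q
  rw [h1]
  have h2 : ∑ q ∈ qs P Q, ((N : ℝ) / q - 1) ≤ ∑ q ∈ qs P Q, ((N / q : ℕ) : ℝ) := by
    refine Finset.sum_le_sum fun q hq => ?_
    have := Nat.lt_floor_add_one ((N : ℝ) / q)
    rw [Nat.floor_div_natCast, Nat.floor_natCast] at this
    linarith
  refine le_trans ?_ h2
  rw [Finset.sum_sub_distrib, Finset.sum_const, nsmul_eq_mul, mul_one]
  have h3 : ∑ q ∈ qs P Q, (N : ℝ) / q = N * Wq P Q := by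
    unfold Wq
    rw [Finset.mul_sum]
    exact Finset.sum_congr rfl fun q _ => by ring
  rw [h3]
  have := card_qs_le (P := P) hP hQ
  linarith

/-- Second moment. -/
theorem moment_two {P Q : ℝ} (hP : 0 ≤ P) (N : ℕ) :
    ∑ n ∈ Finset.Ioc 0 N, omq P Q n ^ 2 ≤ N * Wq P Q + N * Wq P Q ^ 2 := by
  classical
  have h1 : ∀ n : ℕ, omq P Q n ^ 2 = ∑ q ∈ qs P Q, ∑ q' ∈ qs P Q,
      (if q ∣ n ∧ q' ∣ n then (1 : ℝ) else 0) := by
    intro n
    rw [omq_eq, sq, Finset.sum_mul_sum]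
    refine Finset.sum_congr rfl fun q _ => Finset.sum_congr rfl fun q' _ => ?_
    by_cases h : q ∣ n <;> by_cases h' : q' ∣ n <;> simp [h, h']
  have h2 : ∑ n ∈ Finset.Ioc 0 N, omq P Q n ^ 2 = ∑ q ∈ qs P Q, ∑ q' ∈ qs P Q,
      ∑ n ∈ Finset.Ioc 0 N, (if q ∣ n ∧ q' ∣ n then (1 : ℝ) else 0) := by
    simp_rw [h1]
    rw [Finset.sum_comm]
    refine Finset.sum_congr rfl fun q _ => ?_
    rw [Finset.sum_comm]
  rw [h2]
  have h3 : ∀ q ∈ qs P Q, ∀ q' ∈ qs P Q,
      ∑ n ∈ Finset.Ioc 0 N, (if q ∣ n ∧ q' ∣ n then (1 : ℝ) else 0) ≤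
        (if q = q' then (N : ℝ) * (1 / q) else 0) + N * ((1 / q) * (1 / q')) := by
    intro q hq q' hq'
    have hqp := ((mem_qs hP).1 hq).1
    have hqp' := ((mem_qs hP).1 hq').1
    by_cases h : q = q'
    · subst h
      simp only [and_self, if_true]
      rw [count_dvd]
      have : ((N / q : ℕ) : ℝ) ≤ (N : ℝ) / q := Nat.cast_div_le
      have h4 : (0 : ℝ) ≤ N * ((1 / q) * (1 / q)) := by positivity
      have h5 : (N : ℝ) / q = N * (1 / q) := by ring
      linarith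
    · rw [if_neg h, zero_add]
      have hc : Nat.Coprime q q' := (Nat.coprime_primes hqp hqp').2 h
      have h4 : ∀ n : ℕ, (q ∣ n ∧ q' ∣ n) ↔ q * q' ∣ n := fun n =>
        ⟨fun hh => hc.mul_dvd_of_dvd_of_dvd hh.1 hh.2, fun hh =>
          ⟨(dvd_mul_right q q').trans hh, (dvd_mul_left q' q).trans hh⟩⟩
      simp_rw [h4]
      rw [count_dvd]
      have : ((N / (q * q') : ℕ) : ℝ) ≤ (N : ℝ) / ((q * q' : ℕ) : ℝ) := Nat.cast_div_le
      refine this.trans (le_of_eq ?_)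
      push_cast
      field_simp
  calc ∑ q ∈ qs P Q, ∑ q' ∈ qs P Q,
      ∑ n ∈ Finset.Ioc 0 N, (if q ∣ n ∧ q' ∣ n then (1 : ℝ) else 0)
      ≤ ∑ q ∈ qs P Q, ∑ q' ∈ qs P Q,
        ((if q = q' then (N : ℝ) * (1 / q) else 0) + N * ((1 / q) * (1 / q'))) :=
        Finset.sum_le_sum fun q hq => Finset.sum_le_sum fun q' hq' => h3 q hq q' hq'
    _ = N * Wq P Q + N * Wq P Q ^ 2 := by
        simp_rw [Finset.sum_add_distrib]
        congr 1
        · rw [Wq, Finset.mul_sum]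
          refine Finset.sum_congr rfl fun q hq => ?_
          rw [Finset.sum_ite_eq, if_pos hq]
        · rw [sq, Wq, Finset.sum_mul_sum, Finset.mul_sum]
          refine Finset.sum_congr rfl fun q _ => ?_
          rw [Finset.mul_sum]

end Pool.Agent.Lib.MP_6bc78b_nt.GP.H45
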