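import Pool.Agent.Lib.MP_6bc78b_nt.GP.H45.Abl

/-! Project GP7 (MP_6bc78b_nt), helper45: rows TKX and RNGX. -/

set_option autoImplicit false

open Filter Topology MeasureTheory Set

namespace Pool.Agent.Lib.MP_6bc78b_nt.GP.H45

open Pool.Agent.Lib.MP_6bc78b_nt.GP.G7

lemma range_eq_Ioc (x : ℕ → ℝ) (N : ℕ) :
    ∑ n ∈ Finset.range (N + 1), (if n = 0 then 0 else x n) = ∑ n ∈ Finset.Ioc 0 N, x n := by
  rw [Finset.sum_range_succ']
  simp only [Nat.add_eq_zero_iff, one_ne_zero, and_false, if_false, if_true, add_zero]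
  have h : Finset.Ioc 0 N = (Finset.range N).image (fun n => n + 1) := by
    ext n
    simp only [Finset.mem_Ioc, Finset.mem_image, Finset.mem_range]
    constructor
    · rintro ⟨h1, h2⟩
      exact ⟨n - 1, by omega, by omega⟩
    · rintro ⟨m, h1, rfl⟩
      omega
  rw [h, Finset.sum_image (by intro a _ b _ hab; simpa using hab)]

/-- Variance. -/
theorem variance {P Q : ℝ} (hP : 0 ≤ P) (hQ : 0 ≤ Q) (N : ℕ) :
    ∑ n ∈ Finset.Ioc 0 N, (omq P Q n - Wq P Q) ^ 2 ≤ N * Wq P Q + 2 * Wq P Q * Q := by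
  have h1 : ∑ n ∈ Finset.Ioc 0 N, (omq P Q n - Wq P Q) ^ 2 =
      ∑ n ∈ Finset.Ioc 0 N, omq P Q n ^ 2 - 2 * Wq P Q * ∑ n ∈ Finset.Ioc 0 N, omq P Q n +
        N * Wq P Q ^ 2 := by
    have : ∀ n : ℕ, (omq P Q n - Wq P Q) ^ 2 =
        omq P Q n ^ 2 - 2 * Wq P Q * omq P Q n + Wq P Q ^ 2 := fun n => by ring
    simp_rw [this]
    rw [Finset.sum_add_distrib, Finset.sum_sub_distrib, ← Finset.mul_sum, Finset.sum_const,
      Nat.card_Ioc, nsmul_eq_mul, Nat.sub_zero]
  rw [h1]
  have h2 := moment_one (P := P) (Q := Q) hP hQ N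
  have h3 := moment_two (P := P) (Q := Q) hP N
  have hW := Wq_nonneg P Q
  nlinarith [mul_le_mul_of_nonneg_left h2 hW]

/-- `TKXStatement` with the summability. -/
theorem tkx' : ∀ a : ℝ, 0 < a → ∃ C T0 : ℝ, 0 < C ∧ 10 < T0 ∧ ∀ T P Q : ℝ, T0 ≤ T →
    2 ≤ P → P < Q → Q ≤ T ^ (1 / 4 : ℝ) → 1 ≤ Wq P Q →
    Summable (fun n : ℕ => Real.log n ^ 4 * (1 - omq P Q n / Wq P Q) ^ 2 *
      Real.exp (-(2 * a / T * n))) ∧
    ∑' n : ℕ, Real.log n ^ 4 * (1 - omq P Q n / Wq P Q) ^ 2 * Real.exp (-(2 * a / T * n)) ≤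
      C * T * Real.log T ^ 4 / Wq P Q := by
  intro a ha
  refine ⟨(1 + 4 / a) ^ 4 * (1 / a + 2), 11, by positivity, by norm_num, ?_⟩
  intro T P Q hT hP hPQ hQT hW
  have hT0 : 0 < T := by linarith
  have hT10 : 10 ≤ T := by linarith
  have hQ0 : 0 ≤ Q := by linarith
  have hP0 : 0 ≤ P := by linarith
  have hW0 : 0 < Wq P Q := by linarith
  set W := Wq P Q with hWdef
  set x : ℕ → ℝ := fun n => if n = 0 then 0 else (1 - omq P Q n / W) ^ 2 with hx
  have hx0 : ∀ n, 0 ≤ x n := by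
    intro n
    simp only [hx]
    split_ifs
    · exact le_rfl
    · positivity
  have hpart : ∀ N : ℕ, ∑ n ∈ Finset.range (N + 1), x n ≤ 1 / W * N + 2 * Q / W := by
    intro N
    rw [hx, range_eq_Ioc]
    have h1 : ∀ n : ℕ, (1 - omq P Q n / W) ^ 2 = (omq P Q n - W) ^ 2 / W ^ 2 := by
      intro n
      field_simp
      ring
    simp_rw [h1]
    rw [← Finset.sum_div]
    have h2 := variance (P := P) (Q := Q) hP0 hQ0 N
    rw [← hWdef] at h2
    rw [div_le_iff₀ (by positivity)]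
    refine h2.trans (le_of_eq ?_)
    field_simp
  have hτ : 0 < a / T := by positivity
  have hmain := tsum_le_of_partial hx0 hτ (by positivity) hpart
  have hsx := summable_of_partial hx0 hτ hpart
  set C1 : ℝ := (1 + 4 / a) ^ 4 * Real.log T ^ 4 with hC1
  have hlT : 0 < Real.log T := Real.log_pos (by linarith)
  have hC10 : 0 ≤ C1 := by positivity
  have hle : ∀ n : ℕ, Real.log n ^ 4 * (1 - omq P Q n / W) ^ 2 * Real.exp (-(2 * a / T * n)) ≤
      C1 * (x n * Real.exp (-(a / T * n))) := by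
    intro n
    by_cases hn : n = 0
    · subst hn
      simp [hx]
    · have h1 := log_weight' (T := T) ha hT10 n
      have h2 : (0 : ℝ) ≤ (1 - omq P Q n / W) ^ 2 := by positivity
      simp only [hx, hn, if_false]
      calc Real.log n ^ 4 * (1 - omq P Q n / W) ^ 2 * Real.exp (-(2 * a / T * n)) =
          (1 - omq P Q n / W) ^ 2 * (Real.log n ^ 4 * Real.exp (-(2 * a / T * n))) := by ring
        _ ≤ (1 - omq P Q n / W) ^ 2 * (C1 * Real.exp (-(a / T * n))) := by
          refine mul_le_mul_of_nonneg_left ?_ h2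
          rw [hC1]
          exact h1
        _ = _ := by ring
  have hnn : ∀ n : ℕ, 0 ≤ Real.log n ^ 4 * (1 - omq P Q n / W) ^ 2 *
      Real.exp (-(2 * a / T * n)) := by
    intro n
    have : 0 ≤ Real.log n := Real.log_natCast_nonneg n
    positivity
  have hs2 := hsx.mul_left C1
  have hs1 := Summable.of_nonneg_of_le hnn hle hs2
  have hq : Q ≤ T := by
    refine hQT.trans ?_
    calc T ^ (1 / 4 : ℝ) ≤ T ^ (1 : ℝ) :=
          Real.rpow_le_rpow_of_exponent_le (by linarith) (by norm_num)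
      _ = T := Real.rpow_one T
  refine ⟨hs1, ?_⟩
  calc ∑' n : ℕ, Real.log n ^ 4 * (1 - omq P Q n / W) ^ 2 * Real.exp (-(2 * a / T * n))
      ≤ ∑' n : ℕ, C1 * (x n * Real.exp (-(a / T * n))) := hs1.tsum_le_tsum hle hs2
    _ = C1 * ∑' n : ℕ, x n * Real.exp (-(a / T * n)) := tsum_mul_left
    _ ≤ C1 * (1 / W / (a / T) + 2 * Q / W) := mul_le_mul_of_nonneg_left hmain hC10
    _ ≤ C1 * (1 / W / (a / T) + 2 * T / W) := by
        refine mul_le_mul_of_nonneg_left ?_ hC10
        gcongr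
    _ = (1 + 4 / a) ^ 4 * (1 / a + 2) * T * Real.log T ^ 4 / W := by
        rw [hC1]
        field_simp

theorem tkx : TKXStatement := by
  intro a ha
  obtain ⟨C, T0, h1, h2, h3⟩ := tkx' a ha
  exact ⟨C, T0, h1, h2, fun T P Q a1 a2 a3 a4 a5 => (h3 T P Q a1 a2 a3 a4 a5).2⟩

/-- `RNGXStatement` with the summability. -/
theorem rngx' : ∀ a : ℝ, 0 < a → ∃ C : ℝ, 0 < C ∧ ∀ ε : ℝ, 0 < ε → ε < 1 →
    ∃ T0 : ℝ, 10 < T0 ∧ ∀ T P Q : ℝ, T0 ≤ T → 2 ≤ P → P < Q → Q ≤ T ^ (1 / 4 : ℝ) →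
    1 ≤ Wq P Q →
    Summable (fun n : ℕ => if (n : ℝ) ≤ ε * T ∨ T / ε ≤ n then
      Real.log n ^ 4 * (omq P Q n / Wq P Q) ^ 2 * Real.exp (-(2 * a / T * n)) else 0) ∧
    ∑' n : ℕ, (if (n : ℝ) ≤ ε * T ∨ T / ε ≤ n then
      Real.log n ^ 4 * (omq P Q n / Wq P Q) ^ 2 * Real.exp (-(2 * a / T * n)) else 0) ≤
      C * ε * T * Real.log T ^ 4 := by
  intro a ha
  refine ⟨(1 + 4 / a) ^ 4 * (4 * (2 / a) * (2 / a)) + 2, by positivity, ?_⟩
  intro ε hε hε1
  refine ⟨11, by norm_num, ?_⟩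
  intro T P Q hT hP hPQ hQT hW
  have hT0 : 0 < T := by linarith
  have hT10 : 10 ≤ T := by linarith
  have hP0 : 0 ≤ P := by linarith
  have hW0 : 0 < Wq P Q := by linarith
  set W := Wq P Q with hWdef
  have hlT : 0 < Real.log T := Real.log_pos (by linarith)
  -- the ratio squared
  set y : ℕ → ℝ := fun n => (omq P Q n / W) ^ 2 with hy
  have hy0 : ∀ n, 0 ≤ y n := fun n => by simp only [hy]; positivity
  have hsecond : ∀ N : ℕ, ∑ n ∈ Finset.Ioc 0 N, y n ≤ 2 * N := by
    intro N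
    have h2 := moment_two (P := P) (Q := Q) hP0 N
    rw [← hWdef] at h2
    have h3 : ∑ n ∈ Finset.Ioc 0 N, y n = (∑ n ∈ Finset.Ioc 0 N, omq P Q n ^ 2) / W ^ 2 := by
      rw [Finset.sum_div]
      exact Finset.sum_congr rfl fun n _ => by simp only [hy]; rw [div_pow]
    rw [h3, div_le_iff₀ (by positivity)]
    refine h2.trans ?_
    have hN : (0 : ℝ) ≤ N := Nat.cast_nonneg N
    nlinarith [mul_nonneg hN hW0.le, mul_nonneg (mul_nonneg hN hW0.le) (sub_nonneg.2 hW)]
  set x : ℕ → ℝ := fun n => if n = 0 then 0 else y n with hx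
  have hx0 : ∀ n, 0 ≤ x n := by
    intro n
    simp only [hx]
    split_ifs
    · exact le_rfl
    · exact hy0 n
  have hpart : ∀ N : ℕ, ∑ n ∈ Finset.range (N + 1), x n ≤ 2 * N + 0 := by
    intro N
    rw [hx, range_eq_Ioc, add_zero]
    exact hsecond N
  have hτ : 0 < a / (2 * T) := by positivity
  have hmain := tsum_le_of_partial hx0 hτ (by norm_num) hpart
  have hsx := summable_of_partial hx0 hτ hpart
  rw [add_zero] at hmain
  -- the small part
  set s1 : ℕ → ℝ := fun n => if (n : ℝ) ≤ ε * T then Real.log T ^ 4 * x n else 0 with hs1d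
  set C2 : ℝ := (1 + 4 / a) ^ 4 * Real.log T ^ 4 * (2 * ε / a) with hC2
  have hC20 : 0 ≤ C2 := by positivity
  have hfin : ∀ n ∉ Finset.range (⌊ε * T⌋₊ + 1), s1 n = 0 := by
    intro n hn
    simp only [hs1d]
    rw [if_neg]
    intro h
    exact hn (Finset.mem_range.2 (Nat.lt_succ_iff.2 (Nat.le_floor h)))
  have hss1 : Summable s1 := summable_of_ne_finset_zero hfin
  have hts1 : ∑' n, s1 n ≤ 2 * ε * T * Real.log T ^ 4 := by
    rw [tsum_eq_sum hfin]
    calc ∑ n ∈ Finset.range (⌊ε * T⌋₊ + 1), s1 n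
        ≤ ∑ n ∈ Finset.range (⌊ε * T⌋₊ + 1), Real.log T ^ 4 * x n := by
          refine Finset.sum_le_sum fun n _ => ?_
          simp only [hs1d]
          split_ifs
          · exact le_rfl
          · exact mul_nonneg (by positivity) (hx0 n)
      _ = Real.log T ^ 4 * ∑ n ∈ Finset.range (⌊ε * T⌋₊ + 1), x n := by rw [Finset.mul_sum]
      _ ≤ Real.log T ^ 4 * (2 * (⌊ε * T⌋₊ : ℝ) + 0) :=
          mul_le_mul_of_nonneg_left (hpart _) (by positivity)
      _ ≤ Real.log T ^ 4 * (2 * (ε * T)) := by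
          refine mul_le_mul_of_nonneg_left ?_ (by positivity)
          have := Nat.floor_le (show 0 ≤ ε * T by positivity)
          linarith
      _ = _ := by ring
  have hle : ∀ n : ℕ, (if (n : ℝ) ≤ ε * T ∨ T / ε ≤ n then
      Real.log n ^ 4 * (omq P Q n / W) ^ 2 * Real.exp (-(2 * a / T * n)) else 0) ≤
      s1 n + C2 * (x n * Real.exp (-(a / (2 * T) * n))) := by
    intro n
    have hnn1 : 0 ≤ s1 n := by
      simp only [hs1d]
      split_ifs
      · exact mul_nonneg (by positivity) (hx0 n)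
      · exact le_rfl
    have hnn2 : 0 ≤ C2 * (x n * Real.exp (-(a / (2 * T) * n))) :=
      mul_nonneg hC20 (mul_nonneg (hx0 n) (Real.exp_pos _).le)
    by_cases hn : n = 0
    · subst hn
      simp only [Nat.cast_zero, Real.log_zero]
      split_ifs
      · simp only [ne_eq, OfNat.ofNat_ne_zero, not_false_eq_true, zero_pow, zero_mul]
        simp only [Nat.cast_zero] at hnn2
        linarith
      · simp only [Nat.cast_zero] at hnn2
        linarith
    have hxn : x n = (omq P Q n / W) ^ 2 := by simp only [hx, hn, if_false, hy]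
    by_cases h1 : (n : ℝ) ≤ ε * T
    · rw [if_pos (Or.inl h1)]
      have e1 : s1 n = Real.log T ^ 4 * x n := by simp only [hs1d]; rw [if_pos h1]
      have hn1 : (1 : ℝ) ≤ n := by exact_mod_cast Nat.one_le_iff_ne_zero.2 hn
      have hlog : Real.log n ≤ Real.log T := by
        refine Real.log_le_log (by linarith) (h1.trans ?_)
        nlinarith
      have hln : 0 ≤ Real.log n := Real.log_natCast_nonneg n
      have h4 : Real.log n ^ 4 ≤ Real.log T ^ 4 := pow_le_pow_left₀ hln hlog 4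
      have h5 : Real.exp (-(2 * a / T * n)) ≤ 1 := by
        rw [Real.exp_le_one_iff]
        have : 0 ≤ 2 * a / T * n := by positivity
        linarith
      have h6 : Real.log n ^ 4 * (omq P Q n / W) ^ 2 * Real.exp (-(2 * a / T * n)) ≤
          Real.log T ^ 4 * (omq P Q n / W) ^ 2 * 1 := by
        refine mul_le_mul (mul_le_mul_of_nonneg_right h4 (by positivity)) h5
          (Real.exp_pos _).le (by positivity)
      rw [e1, hxn]
      rw [hxn] at hnn2
      linarith
    · by_cases h2 : T / ε ≤ n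
      · rw [if_pos (Or.inr h2)]
        have h3 := log_weight' (T := T) ha hT10 n
        have h4 : Real.exp (-(a / T * n)) ≤ (2 * ε / a) * Real.exp (-(a / (2 * T) * n)) := by
          have e : Real.exp (-(a / T * n)) =
              Real.exp (-(a / (2 * T) * n)) * Real.exp (-(a / (2 * T) * n)) := by
            rw [← Real.exp_add]; congr 1; field_simp; ring
          rw [e]
          refine mul_le_mul_of_nonneg_right ?_ (Real.exp_pos _).le
          have h5 : a / (2 * ε) ≤ a / (2 * T) * n := by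
            have : a / (2 * ε) = a / (2 * T) * (T / ε) := by field_simp
            rw [this]
            exact mul_le_mul_of_nonneg_left h2 (by positivity)
          have h6 : a / (2 * ε) + 1 ≤ Real.exp (a / (2 * T) * n) :=
            (add_le_add_left h5 1).trans (Real.add_one_le_exp _)
          have h7 : 0 < a / (2 * ε) := by positivity
          rw [Real.exp_neg]
          calc (Real.exp (a / (2 * T) * n))⁻¹ ≤ (a / (2 * ε))⁻¹ :=
                inv_anti₀ h7 (by linarith)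
            _ = 2 * ε / a := by rw [inv_div]
        have h8 : (0 : ℝ) ≤ (omq P Q n / W) ^ 2 := by positivity
        have h9 : 0 ≤ (1 + 4 / a) ^ 4 * Real.log T ^ 4 := by positivity
        have h10 : Real.log n ^ 4 * (omq P Q n / W) ^ 2 * Real.exp (-(2 * a / T * n)) ≤
            C2 * (x n * Real.exp (-(a / (2 * T) * n))) := by
          rw [hxn]
          calc Real.log n ^ 4 * (omq P Q n / W) ^ 2 * Real.exp (-(2 * a / T * n)) =
              (omq P Q n / W) ^ 2 * (Real.log n ^ 4 * Real.exp (-(2 * a / T * n))) := by ring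
            _ ≤ (omq P Q n / W) ^ 2 * ((1 + 4 / a) ^ 4 * Real.log T ^ 4 *
                ((2 * ε / a) * Real.exp (-(a / (2 * T) * n)))) := by
              refine mul_le_mul_of_nonneg_left (h3.trans ?_) h8
              exact mul_le_mul_of_nonneg_left h4 h9
            _ = _ := by rw [hC2]; ring
        linarith
      · rw [if_neg (by tauto)]
        linarith
  have hnn : ∀ n : ℕ, 0 ≤ (if (n : ℝ) ≤ ε * T ∨ T / ε ≤ n then
      Real.log n ^ 4 * (omq P Q n / W) ^ 2 * Real.exp (-(2 * a / T * n)) else 0) := by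
    intro n
    have : 0 ≤ Real.log n := Real.log_natCast_nonneg n
    split_ifs
    · positivity
    · exact le_rfl
  have hs2 := hss1.add (hsx.mul_left C2)
  have hs0 := Summable.of_nonneg_of_le hnn hle hs2
  refine ⟨hs0, ?_⟩
  calc ∑' n : ℕ, (if (n : ℝ) ≤ ε * T ∨ T / ε ≤ n then
      Real.log n ^ 4 * (omq P Q n / W) ^ 2 * Real.exp (-(2 * a / T * n)) else 0)
      ≤ ∑' n : ℕ, (s1 n + C2 * (x n * Real.exp (-(a / (2 * T) * n)))) :=
        hs0.tsum_le_tsum hle hs2
    _ = ∑' n, s1 n + C2 * ∑' n : ℕ, x n * Real.exp (-(a / (2 * T) * n)) := by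
        rw [hss1.tsum_add (hsx.mul_left C2), tsum_mul_left]
    _ ≤ 2 * ε * T * Real.log T ^ 4 + C2 * (2 / (a / (2 * T))) :=
        add_le_add hts1 (mul_le_mul_of_nonneg_left hmain hC20)
    _ ≤ ((1 + 4 / a) ^ 4 * (4 * (2 / a) * (2 / a)) + 2) * ε * T * Real.log T ^ 4 := by
        have e : C2 * (2 / (a / (2 * T))) =
            (1 + 4 / a) ^ 4 * (2 * (2 / a) * (2 / a)) * (ε * T * Real.log T ^ 4) := by
          rw [hC2]
          field_simp
        rw [e]
        have h1 : 0 ≤ (1 + 4 / a) ^ 4 * (2 * (2 / a) * (2 / a)) * (ε * T * Real.log T ^ 4) := by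
          positivity
        nlinarith [h1]

theorem rngx : RNGXStatement := by
  intro a ha
  obtain ⟨C, h1, h2⟩ := rngx' a ha
  refine ⟨C, h1, fun ε he he1 => ?_⟩
  obtain ⟨T0, h3, h4⟩ := h2 ε he he1
  exact ⟨T0, h3, fun T P Q a1 a2 a3 a4 a5 => (h4 T P Q a1 a2 a3 a4 a5).2⟩

/-- The summability of `(ω/W)² log⁴ n e^(-2an/T)` without any restriction, with its bound. -/
theorem omq_sq {a T P Q : ℝ} (ha : 0 < a) (hT : 10 ≤ T) (hP : 0 ≤ P) (hW : 1 ≤ Wq P Q) :
    Summable (fun n : ℕ => Real.log n ^ 4 * (omq P Q n / Wq P Q) ^ 2 *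
      Real.exp (-(2 * a / T * n))) ∧
    ∑' n : ℕ, Real.log n ^ 4 * (omq P Q n / Wq P Q) ^ 2 * Real.exp (-(2 * a / T * n)) ≤
      (1 + 4 / a) ^ 4 * (2 / a) * T * Real.log T ^ 4 := by
  have hT0 : 0 < T := by linarith
  have hW0 : 0 < Wq P Q := by linarith
  set W := Wq P Q with hWdef
  have hlT : 0 < Real.log T := Real.log_pos (by linarith)
  set x : ℕ → ℝ := fun n => if n = 0 then 0 else (omq P Q n / W) ^ 2 with hx
  have hx0 : ∀ n, 0 ≤ x n := by
    intro n
    simp only [hx]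
    split_ifs
    · exact le_rfl
    · positivity
  have hpart : ∀ N : ℕ, ∑ n ∈ Finset.range (N + 1), x n ≤ 2 * N + 0 := by
    intro N
    rw [hx, range_eq_Ioc, add_zero]
    have h2 := moment_two (P := P) (Q := Q) hP N
    rw [← hWdef] at h2
    have h3 : ∑ n ∈ Finset.Ioc 0 N, (omq P Q n / W) ^ 2 =
        (∑ n ∈ Finset.Ioc 0 N, omq P Q n ^ 2) / W ^ 2 := by
      rw [Finset.sum_div]
      exact Finset.sum_congr rfl fun n _ => by rw [div_pow]
    rw [h3, div_le_iff₀ (by positivity)]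
    refine h2.trans ?_
    have hN : (0 : ℝ) ≤ N := Nat.cast_nonneg N
    nlinarith [mul_nonneg hN hW0.le, mul_nonneg (mul_nonneg hN hW0.le) (sub_nonneg.2 hW)]
  have hτ : 0 < a / T := by positivity
  have hmain := tsum_le_of_partial hx0 hτ (by norm_num) hpart
  have hsx := summable_of_partial hx0 hτ hpart
  rw [add_zero] at hmain
  set C1 : ℝ := (1 + 4 / a) ^ 4 * Real.log T ^ 4 with hC1
  have hC10 : 0 ≤ C1 := by positivity
  have hle : ∀ n : ℕ, Real.log n ^ 4 * (omq P Q n / W) ^ 2 * Real.exp (-(2 * a / T * n)) ≤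
      C1 * (x n * Real.exp (-(a / T * n))) := by
    intro n
    by_cases hn : n = 0
    · subst hn
      simp [hx]
    · have h1 := log_weight' (T := T) ha hT n
      have h2 : (0 : ℝ) ≤ (omq P Q n / W) ^ 2 := by positivity
      simp only [hx, hn, if_false]
      calc Real.log n ^ 4 * (omq P Q n / W) ^ 2 * Real.exp (-(2 * a / T * n)) =
          (omq P Q n / W) ^ 2 * (Real.log n ^ 4 * Real.exp (-(2 * a / T * n))) := by ring
        _ ≤ (omq P Q n / W) ^ 2 * (C1 * Real.exp (-(a / T * n))) := by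
          refine mul_le_mul_of_nonneg_left ?_ h2
          rw [hC1]
          exact h1
        _ = _ := by ring
  have hnn : ∀ n : ℕ, 0 ≤ Real.log n ^ 4 * (omq P Q n / W) ^ 2 *
      Real.exp (-(2 * a / T * n)) := by
    intro n
    have : 0 ≤ Real.log n := Real.log_natCast_nonneg n
    positivity
  have hs2 := hsx.mul_left C1
  have hs1 := Summable.of_nonneg_of_le hnn hle hs2
  refine ⟨hs1, ?_⟩
  calc ∑' n : ℕ, Real.log n ^ 4 * (omq P Q n / W) ^ 2 * Real.exp (-(2 * a / T * n))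
      ≤ ∑' n : ℕ, C1 * (x n * Real.exp (-(a / T * n))) := hs1.tsum_le_tsum hle hs2
    _ = C1 * ∑' n : ℕ, x n * Real.exp (-(a / T * n)) := tsum_mul_left
    _ ≤ C1 * (2 / (a / T)) := mul_le_mul_of_nonneg_left hmain hC10
    _ = _ := by
        rw [hC1]
        field_simp

end Pool.Agent.Lib.MP_6bc78b_nt.GP.H45
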